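import Pool.Agent.TH101.RG.SQD

set_option autoImplicit false

/-!
# Numbers next to clusters of primes which are no small square plus a prime

Let `t` be an arbitrary admissible `K`-tuple of the range `[0, (log X)²]` (it may depend on `X`) and `|b| ≤ (log X)²`.
There are many `n ∈ (X, 3X]`, in any class modulo `d` allowed for the tuple, such that many of the `n + t_j` are prime,
while in every representation of `n + b` as a prime plus a square `r²` the number `r` is larger than
`c log X (log₂ X)²`. The same holds for `r² + (n + b)`, and with small multiples of primes in place of primes.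

The coloured Maynard-Tao theorem (helper362) and the sieve in the record windows (helper312's team) of the starting
files are used with a greedy covering in which every prime covers two classes of `r`. The weights which measure the
primes that cannot be used for a given `r`, because of the members of the tuple, are averaged over `r` by bounds for
the moments of `m/φ(m)` at the values `c - s r²` (`Pool.Agent.TH101.RG.SQA`, `SQB`, `SQC`, `SQD`).
-/

open Filter

namespace Pool.Agent.Results.MP_83819a_nt.SquaresNearClusters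

/-- There is `η > 0` and for every `m` there is `K ≥ m` such that the following holds. Let `J` be given and
`d` squarefree. There is `c > 0` such that for all large `X`: let `t_1, …, t_K` be distinct integers of
`[0, (log X)²]` such that for every prime `p` the `v + t_j` are prime to `p` for some `v`, let the `h + t_j` be prime
to `d`, let the `K` indices be coloured with `m` colours, each used at least `K/(2m)` times, let `s = 1` or
`s = -1`, and let `b` be an integer with `|b| ≤ (log X)²`. Then for at least `X^(9/10)` integers `n ≡ h (mod d)` of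
`(X, 3X]` at least `η m` of the colours contain an index `j` with `n + t_j` prime, and `n + b - s r²` is not of the
form `i q` with `1 ≤ |i| ≤ J` and `q` prime, for all integers `0 ≤ r ≤ c log X (log₂ X)²` for which `b - s r²` is
none of the `t_j` (that is, `n + b - s r²` is not one of the `n + t_j`). -/
theorem result : ∃ η : ℝ, 0 < η ∧ ∀ m : ℕ, 1 ≤ m → ∃ K : ℕ, m ≤ K ∧
    ∀ (J d : ℕ), Squarefree d → ∃ c : ℝ, 0 < c ∧ ∃ X₀ : ℝ, ∀ X : ℝ, X₀ ≤ X →
    ∀ t : Fin K → ℕ, Function.Injective t → (∀ j, (t j : ℝ) ≤ (Real.log X) ^ 2) →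
    (∀ p : ℕ, p.Prime → ∃ v : ℕ, ∀ j, ¬ p ∣ v + t j) →
    ∀ h : ℕ, (∀ j, (h + t j).Coprime d) →
    ∀ col : Fin K → Fin m, (∀ e, K ≤ 2 * m * {j | col j = e}.ncard) →
    ∀ s b : ℤ, (s = 1 ∨ s = -1) → |(b : ℝ)| ≤ (Real.log X) ^ 2 →
      X ^ (9 / 10 : ℝ) ≤ ({n : ℕ | X < n ∧ (n : ℝ) ≤ 3 * X ∧ n ≡ h [MOD d] ∧
        η * m ≤ ({e : Fin m | ∃ j, col j = e ∧ (n + t j).Prime}.ncard : ℝ) ∧
        ∀ r : ℕ, (r : ℝ) ≤ c * (Real.log X * (Real.log (Real.log X)) ^ 2) →
          (∀ j, b - s * (r : ℤ) ^ 2 ≠ t j) →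
          ∀ i : ℤ, 1 ≤ |i| → |i| ≤ J → ∀ q : ℕ, q.Prime → i * q ≠ n + b - s * (r : ℤ) ^ 2}.ncard : ℝ) := by
  classical
  obtain ⟨η, hη, H0⟩ := Pool.Agent.TH101.RG.cluster_squares
  refine ⟨η, hη, fun m hm => ?_⟩
  obtain ⟨K, hmK, HK⟩ := H0 m hm
  refine ⟨K, hmK, fun J d hd => ?_⟩
  obtain ⟨c, hc, hX⟩ := HK J d hd
  obtain ⟨X₀, hX₀⟩ := eventually_atTop.1 hX
  refine ⟨c, hc, X₀, fun X hXX t htinj htl hadm h hh col hcol s b hs hb => ?_⟩
  set S := {n : ℕ | X < n ∧ (n : ℝ) ≤ 3 * X ∧ n ≡ h [MOD d] ∧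
        η * m ≤ ({e : Fin m | ∃ j, col j = e ∧ (n + t j).Prime}.ncard : ℝ) ∧
        ∀ r : ℕ, (r : ℝ) ≤ c * (Real.log X * (Real.log (Real.log X)) ^ 2) →
          (∀ j, b - s * (r : ℤ) ^ 2 ≠ t j) →
          ∀ i : ℤ, 1 ≤ |i| → |i| ≤ J → ∀ q : ℕ, q.Prime → i * q ≠ n + b - s * (r : ℤ) ^ 2} with hS
  have hfin : S.Finite := by
    apply (Set.finite_Iic ⌊3 * X⌋₊).subset
    intro p hp
    exact Set.mem_Iic.2 (Nat.le_floor hp.2.1)
  by_contra hcon
  push Not at hcon
  rw [Set.ncard_eq_toFinset_card S hfin] at hcon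
  obtain ⟨n, hXn, hn3, hnb, hnd, ⟨E, hE1, hE2⟩, hmain⟩ := hX₀ X hXX t htinj htl hadm h hh col
    (fun e => by
      have h1 : {j | col j = e}.ncard = Pool.Agent.H362R2.RQ.fib col e := by
        rw [Set.ncard_eq_toFinset_card']
        unfold Pool.Agent.H362R2.RQ.fib
        congr 1
        ext j
        simp
      rw [← h1]
      exact hcol e) s b hs hb hfin.toFinset hcon.le
  apply hnb
  rw [Set.Finite.mem_toFinset]
  refine ⟨hXn, hn3, hnd, hE1.trans ?_, fun r hr hrt => hmain r hr (fun j hj => hrt j (by linarith))⟩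
  have h1 : (E : Set (Fin m)) ⊆ {e : Fin m | ∃ j, col j = e ∧ (n + t j).Prime} := fun e he => hE2 e he
  have h2 := Set.ncard_le_ncard h1 (Set.toFinite _)
  rw [Set.ncard_coe_finset] at h2
  exact_mod_cast h2

end Pool.Agent.Results.MP_83819a_nt.SquaresNearClusters
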